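import Pool.Agent.helper45.KU.QLog

/-! Modules QA and QB of MP_c048c3_co. -/

namespace C048.QQ

open Finset

/-- tail of `∑ g`, no `θ` -/
theorem sum_gq_tail_le' {τ : ℝ} (hτ : 0 < τ) (θ : ℝ) (m N : ℕ) :
    ∑ i ∈ Ioc m N, gq τ θ i ≤ 2 * Real.exp (-(m * τ)) / τ := by
  have key : ∀ k : ℕ, ∑ i ∈ Ioc m (m + k), gq τ θ i
      ≤ 2 * Real.exp (-(m * τ)) / τ - 2 * Real.exp (-((m + k : ℕ) * τ)) / τ := by
    intro k
    induction k with
    | zero => simp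
    | succ k ih =>
      rw [← Nat.add_assoc, ← Finset.insert_Ioc_right_eq_Ioc_add_one (by omega), sum_insert (by simp)]
      have h1 : gq τ θ (m + k + 1) ≤ 2 * Real.exp (-((m + k + 1 : ℕ) * τ)) := by
        unfold gq
        have := Real.neg_one_le_cos (((m + k + 1 : ℕ) : ℝ) * θ)
        have h2 := Real.exp_pos (-((m + k + 1 : ℕ) * τ))
        nlinarith
      have h2 : Real.exp (-((m + k : ℕ) * τ)) = Real.exp τ * Real.exp (-((m + k + 1 : ℕ) * τ)) := by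
        rw [← Real.exp_add]; congr 1; push_cast; ring
      have h3 : τ + 1 ≤ Real.exp τ := Real.add_one_le_exp τ
      have h4 := Real.exp_pos (-((m + k + 1 : ℕ) * τ))
      have h5 : 2 * Real.exp (-((m + k + 1 : ℕ) * τ))
          ≤ 2 * Real.exp (-((m + k : ℕ) * τ)) / τ - 2 * Real.exp (-((m + k + 1 : ℕ) * τ)) / τ := by
        rw [← sub_div, le_div_iff₀ hτ, h2]
        nlinarith [mul_le_mul_of_nonneg_right h3 h4.le]
      linarith
  have h0 : 0 ≤ 2 * Real.exp (-(m * τ)) / τ := by positivity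
  rcases le_total N m with h | h
  · rw [Ioc_eq_empty (by omega)]; simpa using h0
  · obtain ⟨k, rfl⟩ := Nat.exists_eq_add_of_le h
    have h1 := key k
    have h2 : 0 ≤ 2 * Real.exp (-((m + k : ℕ) * τ)) / τ := by positivity
    linarith

/-- `(a²+2a+2)e^{-a}` is antitone -/
theorem psi_anti {a b : ℝ} (ha : 0 ≤ a) (h : a ≤ b) :
    (b ^ 2 + 2 * b + 2) * Real.exp (-b) ≤ (a ^ 2 + 2 * a + 2) * Real.exp (-a) := by
  obtain ⟨d, rfl⟩ : ∃ d, b = a + d := ⟨b - a, by ring⟩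
  have hd : 0 ≤ d := by linarith
  have h1 := Real.quadratic_le_exp_of_nonneg hd
  have h2 : Real.exp (-a) = Real.exp d * Real.exp (-(a + d)) := by
    rw [← Real.exp_add]; congr 1; ring
  rw [h2]
  have h3 := Real.exp_pos (-(a + d))
  have h4 : ((a + d) ^ 2 + 2 * (a + d) + 2) ≤ (a ^ 2 + 2 * a + 2) * Real.exp d := by
    have h5 : (a ^ 2 + 2 * a + 2) * (1 + d + d ^ 2 / 2) ≤ (a ^ 2 + 2 * a + 2) * Real.exp d :=
      mul_le_mul_of_nonneg_left h1 (by positivity)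
    refine le_trans ?_ h5
    have h6 : (a ^ 2 + 2 * a + 2) * (1 + d + d ^ 2 / 2) - ((a + d) ^ 2 + 2 * (a + d) + 2)
        = d * a ^ 2 + d ^ 2 * (a ^ 2 + 2 * a) / 2 := by ring
    have h7 : 0 ≤ d * a ^ 2 + d ^ 2 * (a ^ 2 + 2 * a) / 2 := by positivity
    linarith
  nlinarith [mul_le_mul_of_nonneg_right h4 h3.le]

theorem exp_neg_nat_le (k : ℕ) : Real.exp (-(k : ℝ)) ≤ (0.3678794412 : ℝ) ^ k := by
  have h := Real.exp_neg_one_lt_d9
  have h1 : Real.exp (-(k : ℝ)) = Real.exp (-1) ^ k := by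
    rw [← Real.exp_nat_mul]; congr 1; ring
  rw [h1]
  exact pow_le_pow_left₀ (Real.exp_pos _).le h.le k

theorem kappa_le {n : ℕ} {τ w c κ : ℝ} (hτ : 0 < τ) (h : w ≤ 3 * (n * τ)) (hc : Real.exp (-w) ≤ c)
    (hc1 : c < 1) (hκ : 1 / (1 - c) ^ 2 ≤ κ) (i : ℕ) (hi : 3 * n < i) :
    1 / (1 - Real.exp (-(i * τ))) ^ 2 ≤ κ := by
  have h1 : Real.exp (-(i * τ)) ≤ c := by
    refine le_trans (Real.exp_le_exp.mpr ?_) hc
    have : (3 * n : ℝ) ≤ i := by exact_mod_cast hi.le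
    have := mul_le_mul_of_nonneg_right this hτ.le
    linarith
  refine le_trans ?_ hκ
  have h2 : 0 < 1 - c := by linarith
  apply one_div_le_one_div_of_le (by positivity)
  exact pow_le_pow_left₀ h2.le (by linarith) 2

/-- `Qb`, `Qd`: general form -/
theorem Qbd (n : ℕ) {τ κ e1 e2 e3 B : ℝ} (hτ : 0 < τ) (θ : ℝ)
    (hκ : ∀ i : ℕ, 3 * n < i → 1 / (1 - Real.exp (-(i * τ))) ^ 2 ≤ κ)
    (h1 : Real.exp (-(2 * (n * τ))) ≤ e1) (h2 : Real.exp (-(4 * (n * τ))) ≤ e2)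
    (h3 : Real.exp (-(3 * (n * τ))) ≤ e3) (hκ0 : 0 ≤ κ) (hB : 2 * e1 + e2 / 2 + κ * (2 * e3) ≤ B) :
    T1 τ θ + T1 (2 * τ) (2 * θ) / 2 - B / τ ≤ E n τ θ := by
  have a1 : T1 τ θ ≤ S1 n τ θ + 2 * e1 / τ := by
    apply T1_le_S1 hτ
    intro N
    have b1 := sum_gq_tail_le' hτ θ (2 * n) N
    have b2 : 2 * Real.exp (-((2 * n : ℕ) * τ)) / τ ≤ 2 * e1 / τ := by
      have : ((2 * n : ℕ) : ℝ) * τ = 2 * (n * τ) := by push_cast; ring
      rw [this]; gcongr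
    have b3 : 0 ≤ ∑ i ∈ Ioc n (2 * n), gq τ θ i := sum_nonneg fun i _ => gq_nonneg τ θ i
    linarith
  have a2 : T1 (2 * τ) (2 * θ) ≤ S1 n (2 * τ) (2 * θ) + e2 / τ := by
    apply T1_le_S1 (by linarith)
    intro N
    have b1 := sum_gq_tail_le' (τ := 2 * τ) (by linarith) (2 * θ) (2 * n) N
    have b2 : 2 * Real.exp (-((2 * n : ℕ) * (2 * τ))) / (2 * τ) ≤ e2 / τ := by
      have : ((2 * n : ℕ) : ℝ) * (2 * τ) = 4 * (n * τ) := by push_cast; ring
      rw [this, mul_div_mul_left _ _ (by norm_num)]; gcongr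
    have b3 : 0 ≤ ∑ i ∈ Ioc n (2 * n), gq (2 * τ) (2 * θ) i :=
      sum_nonneg fun i _ => gq_nonneg _ _ i
    linarith
  have a3 : κ * ∑ i ∈ Ioc (3 * n) (6 * n), gq τ θ i ≤ κ * (2 * e3) / τ := by
    have b1 := sum_gq_tail_le' hτ θ (3 * n) (6 * n)
    have b2 : 2 * Real.exp (-((3 * n : ℕ) * τ)) / τ ≤ 2 * e3 / τ := by
      have : ((3 * n : ℕ) : ℝ) * τ = 3 * (n * τ) := by push_cast; ring
      rw [this]; gcongr
    rw [mul_div_assoc]
    exact mul_le_mul_of_nonneg_left (b1.trans b2) hκ0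
  have a4 := E_ge_S1 hτ θ hκ
  have a5 : (2 * e1 + e2 / 2 + κ * (2 * e3)) / τ ≤ B / τ := by gcongr
  have a6 : (2 * e1 + e2 / 2 + κ * (2 * e3)) / τ = 2 * e1 / τ + e2 / τ / 2 + κ * (2 * e3) / τ := by
    ring
  linarith

theorem _root_.C048.Qb (n : ℕ) {τ : ℝ} (hτ : 0 < τ) (h : 2 ≤ n * τ) (θ : ℝ) :
    T1 τ θ + T1 (2 * τ) (2 * θ) / 2 - 0.0425 / τ ≤ E n τ θ := by
  have x4 : Real.exp (-4) ≤ 0.01832 := by
    have := exp_neg_nat_le 4; norm_num at this ⊢; linarith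
  have x8 : Real.exp (-8) ≤ 0.000336 := by
    have := exp_neg_nat_le 8; norm_num at this ⊢; linarith
  have x6 : Real.exp (-6) ≤ 0.002479 := by
    have := exp_neg_nat_le 6; norm_num at this ⊢; linarith
  apply Qbd (κ := 1.005) (e1 := 0.01832) (e2 := 0.000336) (e3 := 0.002479) n hτ θ
  · intro i hi
    exact kappa_le hτ (w := 6) (c := 0.002479) (by linarith) x6 (by norm_num) (by norm_num) i hi
  · exact (Real.exp_le_exp.mpr (by linarith)).trans x4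
  · exact (Real.exp_le_exp.mpr (by linarith)).trans x8
  · exact (Real.exp_le_exp.mpr (by linarith)).trans x6
  · norm_num
  · norm_num

theorem _root_.C048.Qd (n : ℕ) {τ : ℝ} (hτ : 0 < τ) (h : 4 ≤ n * τ) (θ : ℝ) :
    T1 τ θ + T1 (2 * τ) (2 * θ) / 2 - 0.0007 / τ ≤ E n τ θ := by
  have x8 : Real.exp (-8) ≤ 0.000336 := by
    have := exp_neg_nat_le 8; norm_num at this ⊢; linarith
  have x16 : Real.exp (-16) ≤ 0.00000012 := by
    have := exp_neg_nat_le 16; norm_num at this ⊢; linarith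
  have x12 : Real.exp (-12) ≤ 0.0000062 := by
    have := exp_neg_nat_le 12; norm_num at this ⊢; linarith
  apply Qbd (κ := 1.001) (e1 := 0.000336) (e2 := 0.00000012) (e3 := 0.0000062) n hτ θ
  · intro i hi
    exact kappa_le hτ (w := 12) (c := 0.0000062) (by linarith) x12 (by norm_num) (by norm_num) i hi
  · exact (Real.exp_le_exp.mpr (by linarith)).trans x8
  · exact (Real.exp_le_exp.mpr (by linarith)).trans x16
  · exact (Real.exp_le_exp.mpr (by linarith)).trans x12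
  · norm_num
  · norm_num

/-- the second and the third sum, for `Qa` and `Qc` -/
theorem second_le {n : ℕ} {τ p q : ℝ} (hτ : 0 < τ) (θ : ℝ) (hp : 0 ≤ p) (hp2 : 2 ≤ p)
    (h : p ≤ 4 * (n * τ)) (hq : (p ^ 2 + 2 * p + 2) * Real.exp (-p) ≤ q) :
    T1 (2 * τ) (2 * θ) / 2 ≤ S1 n (2 * τ) (2 * θ) / 2 + q / 8 * θ ^ 2 / τ ^ 3 := by
  have a2 : T1 (2 * τ) (2 * θ) ≤ S1 n (2 * τ) (2 * θ) + q / 4 * θ ^ 2 / τ ^ 3 := by
    apply T1_le_S1 (by linarith)
    intro N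
    have e : ((2 * n : ℕ) : ℝ) * (2 * τ) = 4 * (n * τ) := by push_cast; ring
    have b1 := sum_gq_tail_le (τ := 2 * τ) (by linarith) (2 * θ) (2 * n) (by rw [e]; linarith) N
    rw [e] at b1
    have b2 := (psi_anti hp h).trans hq
    have b3 : 0 ≤ ∑ i ∈ Ioc n (2 * n), gq (2 * τ) (2 * θ) i :=
      sum_nonneg fun i _ => gq_nonneg _ _ i
    have b4 : (2 * θ) ^ 2 / (2 * (2 * τ) ^ 3) * (((4 * (n * τ)) ^ 2 + 2 * (4 * (n * τ)) + 2)
        * Real.exp (-(4 * (n * τ)))) ≤ (2 * θ) ^ 2 / (2 * (2 * τ) ^ 3) * q :=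
      mul_le_mul_of_nonneg_left b2 (by positivity)
    have b5 : (2 * θ) ^ 2 / (2 * (2 * τ) ^ 3) * q = q / 4 * θ ^ 2 / τ ^ 3 := by
      field_simp; ring
    linarith
  have : q / 4 * θ ^ 2 / τ ^ 3 / 2 = q / 8 * θ ^ 2 / τ ^ 3 := by ring
  linarith

theorem third_le {n : ℕ} {τ p q κ : ℝ} (hτ : 0 < τ) (θ : ℝ) (hp : 0 ≤ p) (hp2 : 2 ≤ p)
    (h : p ≤ 3 * (n * τ)) (hq : (p ^ 2 + 2 * p + 2) * Real.exp (-p) ≤ q) (hκ : 0 ≤ κ) :
    κ * ∑ i ∈ Ioc (3 * n) (6 * n), gq τ θ i ≤ κ * q / 2 * θ ^ 2 / τ ^ 3 := by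
  have e : ((3 * n : ℕ) : ℝ) * τ = 3 * (n * τ) := by push_cast; ring
  have b1 := sum_gq_tail_le hτ θ (3 * n) (by rw [e]; linarith) (6 * n)
  rw [e] at b1
  have b2 := (psi_anti hp h).trans hq
  have b4 : θ ^ 2 / (2 * τ ^ 3) * (((3 * (n * τ)) ^ 2 + 2 * (3 * (n * τ)) + 2)
      * Real.exp (-(3 * (n * τ)))) ≤ θ ^ 2 / (2 * τ ^ 3) * q :=
    mul_le_mul_of_nonneg_left b2 (by positivity)
  calc κ * ∑ i ∈ Ioc (3 * n) (6 * n), gq τ θ i ≤ κ * (θ ^ 2 / (2 * τ ^ 3) * q) :=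
        mul_le_mul_of_nonneg_left (b1.trans b4) hκ
    _ = _ := by field_simp

theorem _root_.C048.Qc (n : ℕ) {τ : ℝ} (hτ : 0 < τ) (h : 4 ≤ n * τ) (θ : ℝ) :
    T1 τ θ + T1 (2 * τ) (2 * θ) / 2 - 0.0143 * θ ^ 2 / τ ^ 3 ≤ E n τ θ := by
  have x8 : ((8 : ℝ) ^ 2 + 2 * 8 + 2) * Real.exp (-8) ≤ 0.027509 := by
    have := exp_neg_nat_le 8; norm_num at this ⊢; linarith
  have x16 : ((16 : ℝ) ^ 2 + 2 * 16 + 2) * Real.exp (-16) ≤ 0.000033 := by
    have := exp_neg_nat_le 16; norm_num at this ⊢; linarith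
  have x12 : ((12 : ℝ) ^ 2 + 2 * 12 + 2) * Real.exp (-12) ≤ 0.0010446 := by
    have := exp_neg_nat_le 12; norm_num at this ⊢; linarith
  have y12 : Real.exp (-12) ≤ 0.0000062 := by
    have := exp_neg_nat_le 12; norm_num at this ⊢; linarith
  have a1 : T1 τ θ ≤ S1 n τ θ + 0.027509 / 2 * θ ^ 2 / τ ^ 3 := by
    apply T1_le_S1 hτ
    intro N
    have e : ((2 * n : ℕ) : ℝ) * τ = 2 * (n * τ) := by push_cast; ring
    have b1 := sum_gq_tail_le hτ θ (2 * n) (by rw [e]; linarith) N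
    rw [e] at b1
    have b2 := (psi_anti (by norm_num) (by linarith : (8 : ℝ) ≤ 2 * (n * τ))).trans x8
    have b3 : 0 ≤ ∑ i ∈ Ioc n (2 * n), gq τ θ i := sum_nonneg fun i _ => gq_nonneg _ _ i
    have b4 : θ ^ 2 / (2 * τ ^ 3) * (((2 * (n * τ)) ^ 2 + 2 * (2 * (n * τ)) + 2)
        * Real.exp (-(2 * (n * τ)))) ≤ θ ^ 2 / (2 * τ ^ 3) * 0.027509 :=
      mul_le_mul_of_nonneg_left b2 (by positivity)
    have b5 : θ ^ 2 / (2 * τ ^ 3) * 0.027509 = 0.027509 / 2 * θ ^ 2 / τ ^ 3 := by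
      field_simp
    linarith
  have a2 := second_le (n := n) hτ θ (by norm_num) (by norm_num) (by linarith : (16 : ℝ) ≤ 4 * (n * τ)) x16
  have a3 := third_le (n := n) (κ := 1.001) hτ θ (by norm_num) (by norm_num)
    (by linarith : (12 : ℝ) ≤ 3 * (n * τ)) x12 (by norm_num)
  have a4 := E_ge_S1 (n := n) (κ := 1.001) hτ θ (fun i hi =>
    kappa_le hτ (w := 12) (c := 0.0000062) (by linarith) y12 (by norm_num) (by norm_num) i hi)
  have a5 : 0 ≤ θ ^ 2 / τ ^ 3 := by positivity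
  have e1 : (0.027509 : ℝ) / 2 * θ ^ 2 / τ ^ 3 = 0.0137545 * (θ ^ 2 / τ ^ 3) := by ring
  have e2 : (0.000033 : ℝ) / 8 * θ ^ 2 / τ ^ 3 = 0.000004125 * (θ ^ 2 / τ ^ 3) := by ring
  have e3 : (1.001 : ℝ) * 0.0010446 / 2 * θ ^ 2 / τ ^ 3 = (1.001 * 0.0005223) * (θ ^ 2 / τ ^ 3) := by ring
  have e4 : (0.0143 : ℝ) * θ ^ 2 / τ ^ 3 = 0.0143 * (θ ^ 2 / τ ^ 3) := by ring
  rw [e1] at a1
  rw [e2] at a2
  rw [e3] at a3
  rw [e4]
  generalize θ ^ 2 / τ ^ 3 = y at *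
  have : (1.001 : ℝ) * 0.0005223 * y ≤ 0.00053 * y := by
    apply mul_le_mul_of_nonneg_right _ a5; norm_num
  linarith

/-- `1 - cos(La) ≤ L²(1 - cos a)` -/
theorem cos_mul_le {a L : ℝ} (ha : 0 ≤ a) (haπ : a ≤ Real.pi) (hL : 1 ≤ L) :
    1 - Real.cos (L * a) ≤ L ^ 2 * (1 - Real.cos a) := by
  have h1 : ∀ x : ℝ, 1 - Real.cos x = 2 * Real.sin (x / 2) ^ 2 := by
    intro x
    have := Real.cos_two_mul (x / 2)
    have h4 := Real.sin_sq_add_cos_sq (x / 2)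
    rw [show 2 * (x / 2) = x by ring] at this
    nlinarith
  rw [h1, h1]
  have hb0 : 0 ≤ a / 2 := by linarith
  have hb1 : a / 2 ≤ Real.pi / 2 := by linarith
  have hs := Real.sin_nonneg_of_nonneg_of_le_pi hb0 (by linarith [Real.pi_pos])
  have key : |Real.sin (L * a / 2)| ≤ L * Real.sin (a / 2) := by
    rcases le_total (L * a / 2) (Real.pi / 2) with h | h
    · have h0 : 0 ≤ L * a / 2 := by positivity
      have h2 := Real.sin_nonneg_of_nonneg_of_le_pi h0 (by linarith [Real.pi_pos])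
      rw [abs_of_nonneg h2]
      have hc := strictConcaveOn_sin_Icc.concaveOn
      have h3 := hc.2 (show (0 : ℝ) ∈ Set.Icc 0 Real.pi from ⟨le_refl _, Real.pi_pos.le⟩)
        (show L * a / 2 ∈ Set.Icc 0 Real.pi from ⟨h0, by linarith [Real.pi_pos]⟩)
        (show (0 : ℝ) ≤ 1 - 1 / L by rw [sub_nonneg, div_le_one (by linarith)]; exact hL)
        (show (0 : ℝ) ≤ 1 / L by positivity) (by ring)
      simp only [smul_eq_mul, mul_zero, Real.sin_zero, zero_add] at h3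
      have h4 : 1 / L * (L * a / 2) = a / 2 := by field_simp
      rw [h4, one_div, inv_mul_le_iff₀ (by linarith)] at h3
      exact h3
    · have h2 : 2 / Real.pi * (a / 2) ≤ Real.sin (a / 2) := Real.mul_le_sin hb0 hb1
      have h3 : 1 ≤ L * Real.sin (a / 2) := by
        have h4 : L * (2 / Real.pi * (a / 2)) ≤ L * Real.sin (a / 2) :=
          mul_le_mul_of_nonneg_left h2 (by linarith)
        have h5 : L * (2 / Real.pi * (a / 2)) = (L * a / 2) * (2 / Real.pi) := by ring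
        have h6 : Real.pi / 2 * (2 / Real.pi) ≤ (L * a / 2) * (2 / Real.pi) :=
          mul_le_mul_of_nonneg_right h (by positivity)
        have h7 : Real.pi / 2 * (2 / Real.pi) = 1 := by
          have := Real.pi_pos.ne'
          field_simp
        linarith
      exact (Real.abs_sin_le_one _).trans h3
  have h2 := pow_le_pow_left₀ (abs_nonneg _) key 2
  rw [sq_abs, mul_pow] at h2
  linarith

theorem gq_shift {n : ℕ} {τ θ : ℝ} (_hτ : 0 < τ) (h0 : 0 ≤ θ) (h1 : n * θ ≤ Real.pi / 2)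
    (l j : ℕ) (hj : n < j) (hj2 : j ≤ 2 * n) :
    gq τ θ (j + l * n) ≤ (1 + l) ^ 2 * Real.exp (-(l * (n * τ))) * gq τ θ j := by
  have hj0 : (0 : ℝ) < j := by exact_mod_cast (by omega : 0 < j)
  have hnj : (n : ℝ) ≤ j := by exact_mod_cast hj.le
  have hj2' : (j : ℝ) ≤ 2 * n := by exact_mod_cast hj2
  have hl0 : (0 : ℝ) ≤ l := Nat.cast_nonneg l
  set L : ℝ := (j + l * n) / j with hL
  have hL1 : 1 ≤ L := by
    rw [hL, le_div_iff₀ hj0]
    have : 0 ≤ (l : ℝ) * n := by positivity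
    linarith
  have hL2 : L ≤ 1 + l := by
    rw [hL, div_le_iff₀ hj0]
    nlinarith [mul_le_mul_of_nonneg_left hnj hl0]
  have ha0 : 0 ≤ j * θ := by positivity
  have ha1 : j * θ ≤ Real.pi := by
    have := mul_le_mul_of_nonneg_right hj2' h0
    linarith
  have h2 := cos_mul_le ha0 ha1 hL1
  have h3 : L * (j * θ) = ((j + l * n : ℕ) : ℝ) * θ := by
    rw [hL]; push_cast; field_simp
  rw [h3] at h2
  have h4 : 0 ≤ 1 - Real.cos (j * θ) := by linarith [Real.cos_le_one (j * θ)]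
  have h5 : L ^ 2 * (1 - Real.cos (j * θ)) ≤ (1 + l) ^ 2 * (1 - Real.cos (j * θ)) := by
    apply mul_le_mul_of_nonneg_right _ h4
    exact pow_le_pow_left₀ (by linarith) hL2 2
  unfold gq
  have h6 : Real.exp (-(((j + l * n : ℕ) : ℝ) * τ))
      = Real.exp (-(l * (n * τ))) * Real.exp (-(j * τ)) := by
    rw [← Real.exp_add]; congr 1; push_cast; ring
  rw [h6]
  have h7 := Real.exp_pos (-(l * (n * τ)))
  have h8 := Real.exp_pos (-(j * τ))
  calc Real.exp (-(l * (n * τ))) * Real.exp (-(j * τ)) * (1 - Real.cos (((j + l * n : ℕ) : ℝ) * θ))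
      ≤ Real.exp (-(l * (n * τ))) * Real.exp (-(j * τ)) * ((1 + l) ^ 2 * (1 - Real.cos (j * θ))) :=
        mul_le_mul_of_nonneg_left (h2.trans h5) (by positivity)
    _ = _ := by ring

theorem block_le {n : ℕ} {τ θ : ℝ} (hτ : 0 < τ) (h0 : 0 ≤ θ) (h1 : n * θ ≤ Real.pi / 2)
    (h : 2 ≤ n * τ) (l : ℕ) :
    ∑ i ∈ Ioc ((l + 2) * n) ((l + 3) * n), gq τ θ i
      ≤ 0.6 * 0.4 ^ l * ∑ j ∈ Ioc n (2 * n), gq τ θ j := by
  have e : ∑ i ∈ Ioc ((l + 2) * n) ((l + 3) * n), gq τ θ i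
      = ∑ j ∈ Ioc n (2 * n), gq τ θ (j + (l + 1) * n) := by
    apply sum_bij' (fun i _ => i - (l + 1) * n) (fun j _ => j + (l + 1) * n)
    · intro i hi
      simp only [mem_Ioc] at hi ⊢
      have a1 : (l + 2) * n = (l + 1) * n + n := by ring
      have a2 : (l + 3) * n = (l + 1) * n + 2 * n := by ring
      omega
    · intro i hi
      simp only [mem_Ioc] at hi ⊢
      have a1 : (l + 2) * n = (l + 1) * n + n := by ring
      have a2 : (l + 3) * n = (l + 1) * n + 2 * n := by ring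
      omega
    · intro i hi
      simp only [mem_Ioc] at hi
      have a1 : (l + 2) * n = (l + 1) * n + n := by ring
      show i - (l + 1) * n + (l + 1) * n = i
      omega
    · intro i _
      show i + (l + 1) * n - (l + 1) * n = i
      omega
    · intro i hi
      simp only [mem_Ioc] at hi
      have a1 : (l + 2) * n = (l + 1) * n + n := by ring
      have a3 : i - (l + 1) * n + (l + 1) * n = i := by omega
      rw [a3]
  have hc : ∀ l : ℕ, ((1 : ℝ) + (l + 1 : ℕ)) ^ 2 * Real.exp (-(((l + 1 : ℕ) : ℝ) * (n * τ)))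
      ≤ 0.6 * 0.4 ^ l := by
    have hq : Real.exp (-(n * τ)) ≤ 0.1354 := by
      have := exp_neg_nat_le 2
      refine (Real.exp_le_exp.mpr (by push_cast; linarith : -(n * τ) ≤ -((2 : ℕ) : ℝ))).trans ?_
      norm_num at this ⊢; linarith
    have hq0 := Real.exp_pos (-(n * τ))
    intro l
    induction l with
    | zero =>
      push_cast
      norm_num at hq ⊢; linarith
    | succ l ih =>
      have e1 : Real.exp (-(((l + 1 + 1 : ℕ) : ℝ) * (n * τ)))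
          = Real.exp (-(n * τ)) * Real.exp (-(((l + 1 : ℕ) : ℝ) * (n * τ))) := by
        rw [← Real.exp_add]; congr 1; push_cast; ring
      rw [e1, pow_succ]
      have hl0 : (0 : ℝ) ≤ l := Nat.cast_nonneg l
      have e2 : ((1 : ℝ) + (l + 1 + 1 : ℕ)) ^ 2 ≤ 9 / 4 * ((1 : ℝ) + (l + 1 : ℕ)) ^ 2 := by
        push_cast; nlinarith
      have e3 := Real.exp_pos (-(((l + 1 : ℕ) : ℝ) * (n * τ)))
      calc ((1 : ℝ) + (l + 1 + 1 : ℕ)) ^ 2 * (Real.exp (-(n * τ)) * Real.exp (-(((l + 1 : ℕ) : ℝ) * (n * τ))))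
          ≤ (9 / 4 * ((1 : ℝ) + (l + 1 : ℕ)) ^ 2) * (0.1354 * Real.exp (-(((l + 1 : ℕ) : ℝ) * (n * τ)))) := by
            gcongr
        _ = (9 / 4 * 0.1354) * (((1 : ℝ) + (l + 1 : ℕ)) ^ 2 * Real.exp (-(((l + 1 : ℕ) : ℝ) * (n * τ)))) := by
            ring
        _ ≤ 0.4 * (0.6 * 0.4 ^ l) := by
            apply mul_le_mul (by norm_num) ih (by positivity) (by norm_num)
        _ = _ := by ring
  rw [e, mul_sum]
  apply sum_le_sum
  intro j hj
  simp only [mem_Ioc] at hj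
  have := gq_shift hτ h0 h1 (l + 1) j hj.1 hj.2
  refine this.trans ?_
  exact mul_le_mul_of_nonneg_right (hc l) (gq_nonneg τ θ j)

theorem tail_le_block {n : ℕ} {τ θ : ℝ} (hτ : 0 < τ) (h0 : 0 ≤ θ) (h1 : n * θ ≤ Real.pi / 2)
    (h : 2 ≤ n * τ) (N : ℕ) :
    ∑ i ∈ Ioc (2 * n) N, gq τ θ i ≤ ∑ j ∈ Ioc n (2 * n), gq τ θ j := by
  set G := ∑ j ∈ Ioc n (2 * n), gq τ θ j with hG
  have hG0 : 0 ≤ G := sum_nonneg fun i _ => gq_nonneg τ θ i
  have hn : 1 ≤ n := by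
    rcases Nat.eq_zero_or_pos n with h' | h'
    · subst h'; norm_num at h
    · exact h'
  have key : ∀ M : ℕ, ∑ i ∈ Ioc (2 * n) ((M + 2) * n), gq τ θ i ≤ (1 - 0.4 ^ M) * G := by
    intro M
    induction M with
    | zero => simp
    | succ M ih =>
      have e : ∑ i ∈ Ioc (2 * n) ((M + 1 + 2) * n), gq τ θ i
          = ∑ i ∈ Ioc (2 * n) ((M + 2) * n), gq τ θ i
            + ∑ i ∈ Ioc ((M + 2) * n) ((M + 3) * n), gq τ θ i := by
        rw [show M + 1 + 2 = M + 3 by ring]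
        rw [← sum_union]
        · congr 1
          rw [Ioc_union_Ioc_eq_Ioc]
          · nlinarith
          · nlinarith
        · rw [disjoint_left]; intro i hi hi2; simp only [mem_Ioc] at hi hi2; omega
      rw [e]
      have := block_le hτ h0 h1 h M
      rw [← hG] at this
      have e2 : (1 - 0.4 ^ (M + 1)) * G = (1 - 0.4 ^ M) * G + 0.6 * 0.4 ^ M * G := by
        rw [pow_succ]; ring
      rw [e2]; linarith
  have h2 := key N
  have h3 : ∑ i ∈ Ioc (2 * n) N, gq τ θ i ≤ ∑ i ∈ Ioc (2 * n) ((N + 2) * n), gq τ θ i := by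
    apply sum_le_sum_of_subset_of_nonneg
    · intro i hi
      simp only [mem_Ioc] at hi ⊢
      refine ⟨hi.1, hi.2.trans ?_⟩
      nlinarith
    · intro i _ _; exact gq_nonneg τ θ i
  have h4 : 0 ≤ (0.4 : ℝ) ^ N * G := by positivity
  linarith

theorem _root_.C048.Qa (n : ℕ) {τ θ : ℝ} (hτ : 0 < τ) (h : 2 ≤ n * τ) (h0 : 0 ≤ θ)
    (h1 : n * θ ≤ Real.pi / 2) :
    T1 τ θ + T1 (2 * τ) (2 * θ) / 2 - 0.0658 * θ ^ 2 / τ ^ 3 ≤ E n τ θ := by
  have x8 : ((8 : ℝ) ^ 2 + 2 * 8 + 2) * Real.exp (-8) ≤ 0.027509 := by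
    have := exp_neg_nat_le 8; norm_num at this ⊢; linarith
  have x6 : ((6 : ℝ) ^ 2 + 2 * 6 + 2) * Real.exp (-6) ≤ 0.12394 := by
    have := exp_neg_nat_le 6; norm_num at this ⊢; linarith
  have y6 : Real.exp (-6) ≤ 0.002479 := by
    have := exp_neg_nat_le 6; norm_num at this ⊢; linarith
  have a1 : T1 τ θ ≤ S1 n τ θ + 0 := by
    apply T1_le_S1 hτ
    intro N
    have := tail_le_block hτ h0 h1 h N
    linarith
  have a2 := second_le (n := n) hτ θ (by norm_num) (by norm_num) (by linarith : (8 : ℝ) ≤ 4 * (n * τ)) x8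
  have a3 := third_le (n := n) (κ := 1.005) hτ θ (by norm_num) (by norm_num)
    (by linarith : (6 : ℝ) ≤ 3 * (n * τ)) x6 (by norm_num)
  have a4 := E_ge_S1 (n := n) (κ := 1.005) hτ θ (fun i hi =>
    kappa_le hτ (w := 6) (c := 0.002479) (by linarith) y6 (by norm_num) (by norm_num) i hi)
  have a5 : 0 ≤ θ ^ 2 / τ ^ 3 := by positivity
  have e2 : (0.027509 : ℝ) / 8 * θ ^ 2 / τ ^ 3 = 0.027509 / 8 * (θ ^ 2 / τ ^ 3) := by ring
  have e3 : (1.005 : ℝ) * 0.12394 / 2 * θ ^ 2 / τ ^ 3 = (1.005 * 0.12394 / 2) * (θ ^ 2 / τ ^ 3) := by ring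
  have e4 : (0.0658 : ℝ) * θ ^ 2 / τ ^ 3 = 0.0658 * (θ ^ 2 / τ ^ 3) := by ring
  rw [e2] at a2
  rw [e3] at a3
  rw [e4]
  generalize θ ^ 2 / τ ^ 3 = y at *
  have : (1.005 * 0.12394 / 2 : ℝ) * y + 0.027509 / 8 * y ≤ 0.0658 * y := by
    rw [← add_mul]
    apply mul_le_mul_of_nonneg_right _ a5; norm_num
  linarith

end C048.QQ
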