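import Pool.Agent.helper70.KU.Defs

/-! Base of the modules QA, QB of MP_c048c3_co: the series `T1`, tails of `∑ i^2 e^{-iτ}`,
and the first two terms of the logarithmic series. -/

namespace C048.QQ

open Finset

/-- `gq τ θ i = e^{-iτ}(1 - cos iθ)` -/
noncomputable def gq (τ θ : ℝ) (i : ℕ) : ℝ := Real.exp (-(i * τ)) * (1 - Real.cos (i * θ))

theorem gq_nonneg (τ θ : ℝ) (i : ℕ) : 0 ≤ gq τ θ i := by
  unfold gq
  have := Real.cos_le_one (i * θ)
  have := Real.exp_pos (-(i * τ))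
  apply mul_nonneg this.le; linarith

theorem pow_z_re (τ θ : ℝ) (i : ℕ) :
    ((Complex.exp (-(τ : ℂ) + θ * Complex.I)) ^ i).re = Real.exp (-(i * τ)) * Real.cos (i * θ) := by
  rw [← Complex.exp_nat_mul]
  have : (i : ℂ) * (-(τ : ℂ) + θ * Complex.I) = ((-(i * τ) : ℝ) : ℂ) + ((i * θ : ℝ) : ℂ) * Complex.I := by
    push_cast; ring
  rw [this, Complex.exp_re]
  simp

theorem norm_z (τ θ : ℝ) : ‖Complex.exp (-(τ : ℂ) + θ * Complex.I)‖ = Real.exp (-τ) := by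
  rw [Complex.norm_exp]; simp

theorem one_sub_z (τ θ : ℝ) : Complex.normSq (1 - Complex.exp (-(τ : ℂ) + θ * Complex.I))
    = (1 - Real.exp (-τ)) ^ 2 + 4 * Real.exp (-τ) * Real.sin (θ / 2) ^ 2 := by
  rw [Complex.normSq_apply]
  have h1 : (Complex.exp (-(τ : ℂ) + θ * Complex.I)).re = Real.exp (-τ) * Real.cos θ := by
    rw [Complex.exp_re]; simp
  have h2 : (Complex.exp (-(τ : ℂ) + θ * Complex.I)).im = Real.exp (-τ) * Real.sin θ := by
    rw [Complex.exp_im]; simp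
  rw [Complex.sub_re, Complex.sub_im, h1, h2]
  simp only [Complex.one_re, Complex.one_im]
  have h3 : Real.cos θ = 1 - 2 * Real.sin (θ / 2) ^ 2 := by
    have := Real.cos_two_mul (θ / 2)
    have h4 := Real.sin_sq_add_cos_sq (θ / 2)
    rw [show 2 * (θ / 2) = θ by ring] at this
    nlinarith
  have h5 : Real.sin θ ^ 2 = 1 - Real.cos θ ^ 2 := by
    have := Real.sin_sq_add_cos_sq θ; linarith
  have : (1 - Real.exp (-τ) * Real.cos θ) * (1 - Real.exp (-τ) * Real.cos θ)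
      + (0 - Real.exp (-τ) * Real.sin θ) * (0 - Real.exp (-τ) * Real.sin θ)
      = 1 - 2 * Real.exp (-τ) * Real.cos θ + Real.exp (-τ) ^ 2 * Real.cos θ ^ 2
        + Real.exp (-τ) ^ 2 * Real.sin θ ^ 2 := by ring
  rw [this, h5, h3]; ring

theorem one_sub_z_re (τ θ : ℝ) : (1 - Complex.exp (-(τ : ℂ) + θ * Complex.I)).re
    = (1 - Real.exp (-τ)) + 2 * Real.exp (-τ) * Real.sin (θ / 2) ^ 2 := by
  have h1 : (Complex.exp (-(τ : ℂ) + θ * Complex.I)).re = Real.exp (-τ) * Real.cos θ := by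
    rw [Complex.exp_re]; simp
  rw [Complex.sub_re, h1]
  have h3 : Real.cos θ = 1 - 2 * Real.sin (θ / 2) ^ 2 := by
    have := Real.cos_two_mul (θ / 2)
    have h4 := Real.sin_sq_add_cos_sq (θ / 2)
    rw [show 2 * (θ / 2) = θ by ring] at this
    nlinarith
  rw [h3]; simp; ring

theorem hasSum_gq {τ : ℝ} (hτ : 0 < τ) (θ : ℝ) : HasSum (gq τ θ) (T1 τ θ) := by
  set z := Complex.exp (-(τ : ℂ) + θ * Complex.I) with hz
  have hr1 : Real.exp (-τ) < 1 := by rw [Real.exp_lt_one_iff]; linarith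
  have hr0 := Real.exp_pos (-τ)
  have hn : ‖z‖ < 1 := by rw [hz, norm_z]; exact hr1
  have h1 := hasSum_geometric_of_norm_lt_one hn
  have h2 : HasSum (fun i : ℕ => (z ^ i).re) ((1 - z)⁻¹).re := by
    have := Complex.reCLM.hasSum h1
    simpa using this
  have h3 := hasSum_geometric_of_lt_one hr0.le hr1
  have h4 := h3.sub h2
  have e1 : (fun i : ℕ => Real.exp (-τ) ^ i - (z ^ i).re) = gq τ θ := by
    funext i
    rw [hz, pow_z_re, gq, ← Real.exp_nat_mul]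
    rw [show (i : ℝ) * -τ = -(i * τ) by ring]; ring
  rw [e1] at h4
  suffices key : T1 τ θ = (1 - Real.exp (-τ))⁻¹ - (1 - z)⁻¹.re by rw [key]; exact h4
  rw [Complex.inv_re, hz, one_sub_z, one_sub_z_re, T1]
  set r := Real.exp (-τ) with hr
  set s := Real.sin (θ / 2) with hs
  have hsq : Real.exp (-(τ / 2)) ^ 2 = r := by
    rw [← Real.exp_nat_mul]; congr 1; push_cast; ring
  have hprod : Real.exp (τ / 2) * Real.exp (-(τ / 2)) = 1 := by
    rw [← Real.exp_add]; simp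
  set x := Real.exp (-(τ / 2)) with hx
  have hx0 : 0 < x := Real.exp_pos _
  have hex : Real.exp (τ / 2) = 1 / x := by field_simp; linarith
  have hsinh : Real.sinh (τ / 2) = (1 - r) / (2 * x) := by
    rw [Real.sinh_eq, hex, ← hsq, ← hx]; field_simp
  have hcosh : Real.cosh (τ / 2) = (1 + r) / (2 * x) := by
    rw [Real.cosh_eq, hex, ← hsq, ← hx]; field_simp
  have h1r : 0 < 1 - r := by linarith
  have htanh : Real.tanh (τ / 2) = (1 - r) / (1 + r) := by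
    rw [Real.tanh_eq_sinh_div_cosh, hsinh, hcosh]; field_simp
  rw [htanh, hsinh]
  have hD : 0 < (1 - r) ^ 2 + 4 * r * s ^ 2 := by positivity
  have e2 : ((1 - r) / (2 * x)) ^ 2 + s ^ 2 = ((1 - r) ^ 2 + 4 * r * s ^ 2) / (4 * r) := by
    rw [← hsq]; field_simp; ring
  rw [e2]
  field_simp
  ring

/-- partial sums bound `T1` -/
theorem T1_le_of_sum {τ : ℝ} (hτ : 0 < τ) (θ B : ℝ) (h : ∀ N, ∑ i ∈ range N, gq τ θ i ≤ B) :
    T1 τ θ ≤ B :=
  hasSum_le_of_sum_le (hasSum_gq hτ θ) (fun s => by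
    obtain ⟨N, hN⟩ := s.exists_nat_subset_range
    exact (sum_le_sum_of_subset_of_nonneg hN (fun i _ _ => gq_nonneg τ θ i)).trans (h N))

/-- `x² e^{-x}` antiderivative telescoping -/
noncomputable def Phi (τ x : ℝ) : ℝ := (x ^ 2 / τ + 2 * x / τ ^ 2 + 2 / τ ^ 3) * Real.exp (-(x * τ))

theorem Phi_nonneg {τ x : ℝ} (hτ : 0 < τ) (hx : 0 ≤ x) : 0 ≤ Phi τ x := by
  unfold Phi; positivity

theorem hasDerivAt_Phi {τ : ℝ} (hτ : 0 < τ) (x : ℝ) :
    HasDerivAt (Phi τ) (-(x ^ 2 * Real.exp (-(x * τ)))) x := by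
  have h1 : HasDerivAt (fun x : ℝ => x ^ 2 / τ + 2 * x / τ ^ 2 + 2 / τ ^ 3)
      (2 * x / τ + 2 / τ ^ 2) x := by
    have a1 : HasDerivAt (fun x : ℝ => x ^ 2 / τ) (2 * x / τ) x := by
      simpa using (hasDerivAt_pow 2 x).div_const τ
    have a2 : HasDerivAt (fun x : ℝ => 2 * x / τ ^ 2) (2 / τ ^ 2) x := by
      simpa using ((hasDerivAt_id x).const_mul 2).div_const (τ ^ 2)
    exact (a1.add a2).add_const _
  have h2 : HasDerivAt (fun x : ℝ => Real.exp (-(x * τ))) (Real.exp (-(x * τ)) * (-τ)) x := by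
    have : HasDerivAt (fun x : ℝ => -(x * τ)) (-τ) x := by
      have h := ((hasDerivAt_id x).mul_const τ).neg
      rw [one_mul] at h
      exact h
    exact this.exp
  have h3 := h1.mul h2
  refine h3.congr_deriv ?_
  field_simp
  ring

/-- one step -/
theorem step_Phi {τ x : ℝ} (hτ : 0 < τ) (hx : 2 ≤ x * τ) :
    (x + 1) ^ 2 * Real.exp (-((x + 1) * τ)) ≤ Phi τ x - Phi τ (x + 1) := by
  have hx0 : 0 < x := by
    by_contra hc
    push Not at hc
    have := mul_nonpos_of_nonpos_of_nonneg hc hτ.le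
    linarith
  obtain ⟨c, hc, hc2⟩ := exists_hasDerivAt_eq_slope (Phi τ)
    (fun x => -(x ^ 2 * Real.exp (-(x * τ)))) (lt_add_one x)
    (fun y _ => (hasDerivAt_Phi hτ y).continuousAt.continuousWithinAt)
    (fun y _ => hasDerivAt_Phi hτ y)
  have h1 : Phi τ x - Phi τ (x + 1) = c ^ 2 * Real.exp (-(c * τ)) := by
    have h9 : x + 1 - x = 1 := by ring
    rw [h9, div_one] at hc2
    linarith
  rw [h1]
  -- `y² e^{-yτ}` is antitone for `yτ ≥ 2`
  have hc0 : 0 < c := hx0.trans hc.1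
  have hcx : 2 ≤ c * τ := hx.trans (by nlinarith [hc.1])
  have h2 : (x + 1) / c ≤ Real.exp ((x + 1 - c) * τ / 2) := by
    have h3 : (x + 1 - c) * τ / 2 + 1 ≤ Real.exp ((x + 1 - c) * τ / 2) := Real.add_one_le_exp _
    refine le_trans ?_ h3
    rw [div_le_iff₀ hc0]
    have h4 : 0 ≤ x + 1 - c := by linarith [hc.2]
    nlinarith [mul_le_mul_of_nonneg_left hcx h4]
  have h5 : ((x + 1) / c) ^ 2 ≤ Real.exp ((x + 1 - c) * τ) := by
    have h6 : Real.exp ((x + 1 - c) * τ) = Real.exp ((x + 1 - c) * τ / 2) ^ 2 := by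
      rw [← Real.exp_nat_mul]; congr 1; push_cast; ring
    rw [h6]
    exact pow_le_pow_left₀ (by positivity) h2 2
  rw [div_pow, div_le_iff₀ (by positivity)] at h5
  have h7 : Real.exp (-(c * τ)) = Real.exp ((x + 1 - c) * τ) * Real.exp (-((x + 1) * τ)) := by
    rw [← Real.exp_add]; congr 1; ring
  rw [h7]
  have h8 := Real.exp_pos (-((x + 1) * τ))
  nlinarith [mul_le_mul_of_nonneg_right h5 h8.le]

theorem sum_sq_exp {τ : ℝ} (hτ : 0 < τ) (m : ℕ) (hm : 2 ≤ m * τ) (k : ℕ) :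
    ∑ i ∈ Ioc m (m + k), (i : ℝ) ^ 2 * Real.exp (-(i * τ)) ≤ Phi τ m - Phi τ (m + k : ℕ) := by
  induction k with
  | zero => simp
  | succ k ih =>
    rw [← Nat.add_assoc, ← Finset.insert_Ioc_right_eq_Ioc_add_one (by omega), sum_insert (by simp)]
    have h1 : 2 ≤ ((m + k : ℕ) : ℝ) * τ := by
      push_cast
      have : 0 ≤ (k : ℝ) * τ := by positivity
      linarith
    have h2 := step_Phi hτ h1
    push_cast at h2 ih ⊢
    linarith

/-- the tail of `∑ i² e^{-iτ}` -/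
theorem sum_sq_exp_le {τ : ℝ} (hτ : 0 < τ) (m : ℕ) (hm : 2 ≤ m * τ) (N : ℕ) :
    ∑ i ∈ Ioc m N, (i : ℝ) ^ 2 * Real.exp (-(i * τ))
      ≤ ((m * τ) ^ 2 + 2 * (m * τ) + 2) * Real.exp (-(m * τ)) / τ ^ 3 := by
  have e : ((m * τ) ^ 2 + 2 * (m * τ) + 2) * Real.exp (-(m * τ)) / τ ^ 3 = Phi τ m := by
    unfold Phi; field_simp
  rw [e]
  rcases le_total N m with h | h
  · rw [Ioc_eq_empty (by omega)]; simp; exact Phi_nonneg hτ (by positivity)
  · obtain ⟨k, rfl⟩ := Nat.exists_eq_add_of_le h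
    have h1 := sum_sq_exp hτ m hm k
    have h2 : 0 ≤ Phi τ (m + k : ℕ) := Phi_nonneg hτ (by positivity)
    linarith

theorem one_sub_cos_le (x : ℝ) : 1 - Real.cos x ≤ x ^ 2 / 2 := by
  have := Real.one_sub_sq_div_two_le_cos (x := x)
  linarith

theorem gq_le_sq (τ θ : ℝ) (i : ℕ) : gq τ θ i ≤ θ ^ 2 / 2 * ((i : ℝ) ^ 2 * Real.exp (-(i * τ))) := by
  unfold gq
  have h1 := one_sub_cos_le (i * θ)
  have h2 := Real.exp_pos (-(i * τ))
  nlinarith [mul_le_mul_of_nonneg_left h1 h2.le]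

/-- the tail of `∑ g` -/
theorem sum_gq_tail_le {τ : ℝ} (hτ : 0 < τ) (θ : ℝ) (m : ℕ) (hm : 2 ≤ m * τ) (N : ℕ) :
    ∑ i ∈ Ioc m N, gq τ θ i
      ≤ θ ^ 2 / (2 * τ ^ 3) * (((m * τ) ^ 2 + 2 * (m * τ) + 2) * Real.exp (-(m * τ))) := by
  have h1 := sum_sq_exp_le hτ m hm N
  calc ∑ i ∈ Ioc m N, gq τ θ i ≤ ∑ i ∈ Ioc m N, θ ^ 2 / 2 * ((i : ℝ) ^ 2 * Real.exp (-(i * τ))) :=
        sum_le_sum fun i _ => gq_le_sq τ θ i
    _ = θ ^ 2 / 2 * ∑ i ∈ Ioc m N, (i : ℝ) ^ 2 * Real.exp (-(i * τ)) := by rw [mul_sum]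
    _ ≤ θ ^ 2 / 2 * (((m * τ) ^ 2 + 2 * (m * τ) + 2) * Real.exp (-(m * τ)) / τ ^ 3) :=
        mul_le_mul_of_nonneg_left h1 (by positivity)
    _ = _ := by field_simp

end C048.QQ
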