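import Pool.Agent.helper45.KU.QBase

/-! The first two terms of the logarithmic series, upper bound for `fE`, and the comparison of
`E` with `S1`. -/

namespace C048.QQ

open Finset

theorem gq_eq_sin (τ θ : ℝ) (i : ℕ) :
    gq τ θ i = 2 * Real.exp (-(i * τ)) * Real.sin (i * θ / 2) ^ 2 := by
  unfold gq
  have h3 : Real.cos (i * θ) = 1 - 2 * Real.sin (i * θ / 2) ^ 2 := by
    have := Real.cos_two_mul (i * θ / 2)
    have h4 := Real.sin_sq_add_cos_sq (i * θ / 2)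
    rw [show 2 * (i * θ / 2) = i * θ by ring] at this
    nlinarith
  rw [h3]; ring

theorem sinh_sq_eq (y : ℝ) : Real.sinh (y / 2) ^ 2 = (1 - Real.exp (-y)) ^ 2 / (4 * Real.exp (-y)) := by
  have h1 : Real.exp (-y) = Real.exp (-(y / 2)) ^ 2 := by
    rw [← Real.exp_nat_mul]; congr 1; push_cast; ring
  have h2 : Real.exp (y / 2) = 1 / Real.exp (-(y / 2)) := by
    simp [Real.exp_neg]
  rw [Real.sinh_eq, h2, h1]
  have := Real.exp_pos (-(y / 2))
  field_simp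
  ring

/-- upper bound of `fE` -/
theorem fE_le {τ : ℝ} (hτ : 0 < τ) (θ : ℝ) (i : ℕ) (hi : 1 ≤ i) :
    fE τ θ i ≤ gq τ θ i / (1 - Real.exp (-(i * τ))) ^ 2 := by
  unfold fE
  have hi0 : (0 : ℝ) < i := by exact_mod_cast hi
  have hr1 : Real.exp (-(i * τ)) < 1 := by
    rw [Real.exp_lt_one_iff]; have := mul_pos hi0 hτ; linarith
  have hr0 := Real.exp_pos (-(i * τ))
  rw [sinh_sq_eq, gq_eq_sin]
  set r := Real.exp (-(i * τ)) with hr
  set s := Real.sin (i * θ / 2)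
  have h1 : 0 < 1 - r := by linarith
  have h2 : s ^ 2 / ((1 - r) ^ 2 / (4 * r)) = 4 * r * s ^ 2 / (1 - r) ^ 2 := by
    field_simp
  rw [h2]
  have h3 : Real.log (1 + 4 * r * s ^ 2 / (1 - r) ^ 2) ≤ 4 * r * s ^ 2 / (1 - r) ^ 2 := by
    have h4 : (0 : ℝ) < 1 + 4 * r * s ^ 2 / (1 - r) ^ 2 := by positivity
    have := Real.log_le_sub_one_of_pos h4
    linarith
  calc Real.log (1 + 4 * r * s ^ 2 / (1 - r) ^ 2) / 2 ≤ (4 * r * s ^ 2 / (1 - r) ^ 2) / 2 := by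
        linarith
    _ = _ := by field_simp; ring

/-- the first two terms of the logarithmic series -/
theorem fE_ge {τ : ℝ} (hτ : 0 < τ) (θ : ℝ) (i : ℕ) (hi : 1 ≤ i) :
    gq τ θ i + gq (2 * τ) (2 * θ) i / 2 ≤ fE τ θ i := by
  have hi0 : (0 : ℝ) < i := by exact_mod_cast hi
  have hiτ : 0 < i * τ := mul_pos hi0 hτ
  set z := Complex.exp (-((i * τ : ℝ) : ℂ) + ((i * θ : ℝ) : ℂ) * Complex.I) with hz
  set r := Real.exp (-(i * τ)) with hr
  have hr1 : r < 1 := by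
    rw [hr, Real.exp_lt_one_iff]; linarith
  have hr0 : 0 < r := Real.exp_pos _
  have hn : ‖z‖ < 1 := by rw [hz, norm_z]; exact hr1
  have h1 := Complex.hasSum_taylorSeries_neg_log hn
  have h2 : HasSum (fun k : ℕ => (z ^ k / k).re) (-Complex.log (1 - z)).re := by
    have := Complex.reCLM.hasSum h1
    simpa using this
  have hnr : ‖((r : ℝ) : ℂ)‖ < 1 := by
    rw [Complex.norm_real, Real.norm_eq_abs, abs_of_pos hr0]; exact hr1
  have h3 := Complex.hasSum_taylorSeries_neg_log hnr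
  have h4 : HasSum (fun k : ℕ => (((r : ℝ) : ℂ) ^ k / k).re) (-Complex.log (1 - (r : ℂ))).re := by
    have := Complex.reCLM.hasSum h3
    simpa using this
  have h5 := h4.sub h2
  have e1 : (fun k : ℕ => (((r : ℝ) : ℂ) ^ k / k).re - (z ^ k / k).re)
      = fun k : ℕ => r ^ k * (1 - Real.cos (k * (i * θ))) / k := by
    funext k
    have a1 : (((r : ℝ) : ℂ) ^ k / k).re = r ^ k / k := by
      have : (((r : ℝ) : ℂ) ^ k / k) = ((r ^ k / k : ℝ) : ℂ) := by push_cast; rfl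
      rw [this, Complex.ofReal_re]
    have a2 : (z ^ k / k).re = r ^ k * Real.cos (k * (i * θ)) / k := by
      rw [Complex.div_natCast_re, hz, pow_z_re]
      rw [show Real.exp (-(k * (i * τ))) = r ^ k by
        rw [hr, ← Real.exp_nat_mul]; congr 1; ring]
    rw [a1, a2]; ring
  rw [e1] at h5
  have e2 : (-Complex.log (1 - (r : ℂ))).re - (-Complex.log (1 - z)).re = fE τ θ i := by
    rw [Complex.neg_re, Complex.neg_re, Complex.log_re, Complex.log_re]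
    have a1 : ‖(1 : ℂ) - (r : ℂ)‖ = 1 - r := by
      have : (1 : ℂ) - (r : ℂ) = ((1 - r : ℝ) : ℂ) := by push_cast; rfl
      rw [this, Complex.norm_real, Real.norm_eq_abs, abs_of_pos (by linarith)]
    have a2 : ‖(1 : ℂ) - z‖ ^ 2 = (1 - r) ^ 2 + 4 * r * Real.sin (i * θ / 2) ^ 2 := by
      rw [← Complex.normSq_eq_norm_sq, hz, one_sub_z]
    have a3 : (0 : ℝ) < ‖(1 : ℂ) - z‖ := by
      rw [norm_pos_iff]
      intro h0
      have : z = 1 := by linear_combination -h0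
      rw [this] at hn
      simp at hn
    have h1r : 0 < 1 - r := by linarith
    rw [a1, fE, sinh_sq_eq, ← hr]
    have h6 : 1 + Real.sin (i * θ / 2) ^ 2 / ((1 - r) ^ 2 / (4 * r))
        = (‖(1 : ℂ) - z‖ / (1 - r)) ^ 2 := by
      rw [div_pow, a2]; field_simp
    rw [h6, Real.log_pow, Real.log_div a3.ne' h1r.ne']
    push_cast; ring
  rw [e2] at h5
  have h7 := sum_le_hasSum {1, 2} (fun k _ => by
    have := Real.cos_le_one (k * (i * θ))
    have : 0 ≤ 1 - Real.cos (k * (i * θ)) := by linarith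
    positivity) h5
  rw [sum_pair (by norm_num)] at h7
  refine le_trans (le_of_eq ?_) h7
  unfold gq
  push_cast
  have e3 : Real.exp (-(i * (2 * τ))) = r ^ 2 := by
    rw [hr, ← Real.exp_nat_mul]; congr 1; push_cast; ring
  rw [e3, ← hr, show (i : ℝ) * (2 * θ) = 2 * (i * θ) by ring]
  ring_nf

theorem S1_eq (n : ℕ) (τ θ : ℝ) :
    S1 n τ θ = ∑ i ∈ Icc 1 n, gq τ θ i + 2 * ∑ i ∈ Ioc n (2 * n), gq τ θ i := rfl

/-- comparison of `E` with `S1` -/
theorem E_ge_S1 {n : ℕ} {τ κ : ℝ} (hτ : 0 < τ) (θ : ℝ)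
    (hκ : ∀ i : ℕ, 3 * n < i → 1 / (1 - Real.exp (-(i * τ))) ^ 2 ≤ κ) :
    S1 n τ θ + S1 n (2 * τ) (2 * θ) / 2 - κ * ∑ i ∈ Ioc (3 * n) (6 * n), gq τ θ i ≤ E n τ θ := by
  rw [S1_eq, S1_eq, E, D]
  have h1 : ∑ i ∈ Icc 1 n, gq τ θ i + (∑ i ∈ Icc 1 n, gq (2 * τ) (2 * θ) i) / 2
      ≤ ∑ i ∈ Icc 1 n, fE τ θ i := by
    rw [sum_div, ← sum_add_distrib]
    exact sum_le_sum fun i hi => fE_ge hτ θ i (by simp at hi; omega)
  have h2 : ∑ i ∈ Ioc n (2 * n), gq τ θ i + (∑ i ∈ Ioc n (2 * n), gq (2 * τ) (2 * θ) i) / 2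
      ≤ ∑ i ∈ Ioc n (2 * n), fE τ θ i := by
    rw [sum_div, ← sum_add_distrib]
    exact sum_le_sum fun i hi => fE_ge hτ θ i (by simp at hi; omega)
  have h3 : ∑ i ∈ Ioc (3 * n) (6 * n), fE τ θ i ≤ κ * ∑ i ∈ Ioc (3 * n) (6 * n), gq τ θ i := by
    rw [mul_sum]
    apply sum_le_sum
    intro i hi
    have hi2 : 3 * n < i := by simp at hi; omega
    refine (fE_le hτ θ i (by omega)).trans ?_
    rw [div_eq_mul_one_div, mul_comm]
    exact mul_le_mul_of_nonneg_right (hκ i hi2) (gq_nonneg τ θ i)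
  linarith

/-- comparison of `T1` with `S1` -/
theorem T1_le_S1 {n : ℕ} {τ B : ℝ} (hτ : 0 < τ) (θ : ℝ)
    (h : ∀ N, ∑ i ∈ Ioc (2 * n) N, gq τ θ i ≤ B + ∑ i ∈ Ioc n (2 * n), gq τ θ i) :
    T1 τ θ ≤ S1 n τ θ + B := by
  apply T1_le_of_sum hτ
  intro N
  rw [S1_eq]
  have h0 := h N
  have h1 : ∑ i ∈ range N, gq τ θ i ≤ ∑ i ∈ ({0} ∪ Icc 1 n ∪ Ioc n (2 * n)) ∪ Ioc (2 * n) N, gq τ θ i := by
    apply sum_le_sum_of_subset_of_nonneg
    · intro i hi
      simp only [mem_range, mem_union, mem_singleton, mem_Icc, mem_Ioc] at hi ⊢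
      omega
    · intro i _ _; exact gq_nonneg τ θ i
  rw [sum_union, sum_union, sum_union, sum_singleton] at h1
  · have h2 : gq τ θ 0 = 0 := by simp [gq]
    linarith
  · rw [disjoint_left]; intro i hi hi2; simp at hi hi2; omega
  · rw [disjoint_left]; intro i hi hi2; simp at hi hi2; omega
  · rw [disjoint_left]; intro i hi hi2; simp at hi hi2; omega

end C048.QQ
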